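import Pool.Agent.Q45.OI.Alg2
import Pool.Agent.Q45.GM.Dich2

/-!
# Reduction modulo two of the endomorphisms
-/

set_option autoImplicit false
set_option linter.all false

open Module

namespace Pool.Agent.Q45.OI.KLC

open Pool.Agent.Q45.OI

theorem red : Red := by
  intro M V _ _ _ _ _ _ _ κ hκ hk
  set s := Function.surjInv hκ with hs
  have hs1 : ∀ v, κ (s v) = v := Function.surjInv_eq hκ
  have key : ∀ (A : End ℤ_[2] M) x y, κ x = κ y → κ (A x) = κ (A y) := by
    intro A x y h
    obtain ⟨a, ha⟩ := (hk (x - y)).1 (by rw [map_sub, h, sub_self])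
    have hx : x = y + (2 : ℤ_[2]) • a := by rw [← ha]; abel
    rw [hx, map_add, map_add, map_smul, (hk _).2 ⟨_, rfl⟩, add_zero]
  let R₀ : End ℤ_[2] M → End (ZMod 2) V := fun A =>
    AddMonoidHom.toZModLinearMap 2 (AddMonoidHom.mk' (fun v => κ (A (s v))) fun v w => by
      rw [key A (s (v + w)) (s v + s w) (by rw [hs1, map_add, hs1, hs1]), map_add, map_add])
  have hR₀ : ∀ A m, R₀ A (κ m) = κ (A m) := by
    intro A m
    show κ (A (s (κ m))) = κ (A m)
    exact key A _ _ (hs1 _)
  have hext : ∀ X Y : End (ZMod 2) V, (∀ m, X (κ m) = Y (κ m)) → X = Y := by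
    intro X Y h
    refine LinearMap.ext fun v => ?_
    obtain ⟨m, rfl⟩ := hκ v
    exact h m
  let R : End ℤ_[2] M →+* End (ZMod 2) V :=
    { toFun := R₀
      map_one' := hext _ _ fun m => by rw [hR₀]; rfl
      map_mul' := fun A B => hext _ _ fun m => by
        rw [hR₀, End.mul_apply, End.mul_apply, hR₀, hR₀]
      map_zero' := hext _ _ fun m => by rw [hR₀, LinearMap.zero_apply, LinearMap.zero_apply, map_zero]
      map_add' := fun A B => hext _ _ fun m => by
        rw [hR₀, LinearMap.add_apply, LinearMap.add_apply, hR₀, hR₀, map_add] }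
  have hR : ∀ A m, R A (κ m) = κ (A m) := hR₀
  have hker : ∀ A, R A = 0 ↔ ∃ C, A = (2 : ℤ_[2]) • C := by
    intro A
    constructor
    · intro h
      have h1 : ∀ m, ∃ m', A m = (2 : ℤ_[2]) • m' := by
        intro m
        rw [← hk, ← hR, h]
        rfl
      choose f hf using h1
      set bs := Module.Free.chooseBasis ℤ_[2] M
      refine ⟨bs.constr ℤ_[2] fun i => f (bs i), bs.ext fun i => ?_⟩
      rw [LinearMap.smul_apply, Basis.constr_basis, ← hf]
    · rintro ⟨C, rfl⟩
      refine hext _ _ fun m => ?_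
      rw [hR, LinearMap.smul_apply, (hk _).2 ⟨_, rfl⟩]
      rfl
  refine ⟨R, hR, ?_, hker, ?_⟩
  · intro X
    set bs := Module.Free.chooseBasis ℤ_[2] M
    refine ⟨bs.constr ℤ_[2] fun i => s (X (κ (bs i))), hext _ _ fun m => ?_⟩
    rw [hR]
    set A : End ℤ_[2] M := bs.constr ℤ_[2] fun i => s (X (κ (bs i))) with hA
    have h1 : ∀ i, κ (A (bs i)) = X (κ (bs i)) := by
      intro i
      rw [hA, Basis.constr_basis, hs1]
    rw [← bs.sum_repr m, map_sum, map_sum, map_sum, map_sum]
    refine Finset.sum_congr rfl fun i _ => ?_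
    rw [map_smul, Pool.Agent.Q45.GM.kap_smul κ hk, Pool.Agent.Q45.GM.kap_smul κ hk, map_smul, h1]
  · intro L hL
    refine ⟨AddSubgroup.toZModSubmodule 2 (L.toAddSubgroup.map (R : End ℤ_[2] M →+ End (ZMod 2) V)),
      fun X => Iff.rfl, ?_⟩
    set U : Submodule (ZMod 2) (End (ZMod 2) V) := AddSubgroup.toZModSubmodule 2
      (L.toAddSubgroup.map (R : End ℤ_[2] M →+ End (ZMod 2) V)) with hU
    symm
    let κ' : L →+ End (ZMod 2) V := (R : End ℤ_[2] M →+ End (ZMod 2) V).comp L.subtype.toAddMonoidHom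
    have hκ' : ∀ A : L, κ' A = R A.1 := fun A => rfl
    haveI : Finite (End (ZMod 2) V) := Module.finite_of_finite (ZMod 2)
    refine Pool.Agent.Q45.GM.JLIN6.main 2 L (End (ZMod 2) V) κ' (finrank (ZMod 2) U) ?_ ?_
    · intro A
      have h2 : ((2 : ℕ) : ℤ_[2]) = 2 := Nat.cast_ofNat
      rw [hκ', hker, h2]
      constructor
      · rintro ⟨C, hC⟩
        exact ⟨⟨C, hL C (by rw [← hC]; exact A.2)⟩, Subtype.ext hC⟩
      · rintro ⟨C, hC⟩
        exact ⟨C.1, congrArg Subtype.val hC⟩
    · have h3 : (κ'.range : Set (End (ZMod 2) V)) = U := by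
        ext X
        constructor
        · rintro ⟨A, rfl⟩
          exact ⟨A.1, A.2, rfl⟩
        · rintro ⟨A, hA, rfl⟩
          exact ⟨⟨A, hA⟩, rfl⟩
      have h4 : Nat.card κ'.range = Nat.card U := Nat.card_congr (Equiv.setCongr h3)
      rw [h4, Module.natCard_eq_pow_finrank (K := ZMod 2), Nat.card_zmod]

end Pool.Agent.Q45.OI.KLC
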