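import Pool.Agent.Q45.OI.Alg1

/-!
# The Lie algebra of a group of automorphisms
-/

set_option autoImplicit false
set_option linter.all false

open Module

namespace Pool.Agent.Q45.OI.KLA

open Pool.Agent.Q45.OI

variable {M : Type} [AddCommGroup M] [Module ℤ_[2] M]

theorem Cg.mono {m n : ℕ} (h : m ≤ n) {A B : End ℤ_[2] M} (hc : Cg n A B) : Cg m A B := by
  obtain ⟨C, rfl⟩ := hc
  refine ⟨(2 : ℤ_[2]) ^ (n - m) • C, ?_⟩
  rw [smul_smul, ← pow_add, Nat.add_sub_cancel' h]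

theorem Cg.refl (n : ℕ) (A : End ℤ_[2] M) : Cg n A A := ⟨0, by rw [smul_zero, add_zero]⟩

theorem Cg.symm {n : ℕ} {A B : End ℤ_[2] M} (h : Cg n A B) : Cg n B A := by
  obtain ⟨C, rfl⟩ := h
  exact ⟨-C, by rw [smul_neg]; abel⟩

theorem Cg.trans {n : ℕ} {A B D : End ℤ_[2] M} (h : Cg n A B) (h' : Cg n B D) : Cg n A D := by
  obtain ⟨C, rfl⟩ := h
  obtain ⟨C', rfl⟩ := h'
  exact ⟨C' + C, by rw [smul_add]; abel⟩

theorem Cg.add {n : ℕ} {A B A' B' : End ℤ_[2] M} (h : Cg n A B) (h' : Cg n A' B') :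
    Cg n (A + A') (B + B') := by
  obtain ⟨C, rfl⟩ := h
  obtain ⟨C', rfl⟩ := h'
  exact ⟨C + C', by rw [smul_add]; abel⟩

theorem Cg.mul_left {n : ℕ} {A B : End ℤ_[2] M} (D : End ℤ_[2] M) (h : Cg n A B) :
    Cg n (D * A) (D * B) := by
  obtain ⟨C, rfl⟩ := h
  exact ⟨D * C, by rw [mul_add, mul_smul_comm]⟩

theorem Cg.mul_right {n : ℕ} {A B : End ℤ_[2] M} (D : End ℤ_[2] M) (h : Cg n A B) :
    Cg n (A * D) (B * D) := by
  obtain ⟨C, rfl⟩ := h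
  exact ⟨C * D, by rw [add_mul, smul_mul_assoc]⟩

theorem Cg.mul {n : ℕ} {A B A' B' : End ℤ_[2] M} (h : Cg n A B) (h' : Cg n A' B') :
    Cg n (A * A') (B * B') := Cg.trans (Cg.mul_right A' h) (Cg.mul_left B h')

/-- The product of two elements which are close to `1`. -/
theorem cg_mul {i n : ℕ} (hi : n ≤ i) {g h A B : End ℤ_[2] M}
    (hg : Cg (i + n) g (1 + (2 : ℤ_[2]) ^ i • A)) (hh : Cg (i + n) h (1 + (2 : ℤ_[2]) ^ i • B)) :
    Cg (i + n) (g * h) (1 + (2 : ℤ_[2]) ^ i • (A + B)) := by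
  refine Cg.trans (Cg.mul hg hh) ⟨(2 : ℤ_[2]) ^ (i - n) • (A * B), ?_⟩
  have h1 : (2 : ℤ_[2]) ^ (i + n) * (2 : ℤ_[2]) ^ (i - n) = 2 ^ i * 2 ^ i := by
    rw [← pow_add, ← pow_add]
    congr 1
    omega
  simp only [mul_add, add_mul, mul_one, one_mul, smul_mul_assoc, mul_smul_comm, smul_smul, smul_add,
    h1]
  abel

/-- The square of an element which is close to `1`. -/
theorem cg_sq {i n : ℕ} (hi : n + 1 ≤ i) {g A : End ℤ_[2] M}
    (hg : Cg (i + n) g (1 + (2 : ℤ_[2]) ^ i • A)) :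
    Cg (i + 1 + n) (g * g) (1 + (2 : ℤ_[2]) ^ (i + 1) • A) := by
  obtain ⟨C, rfl⟩ := hg
  have hX : (1 : End ℤ_[2] M) + (2 : ℤ_[2]) ^ i • A + (2 : ℤ_[2]) ^ (i + n) • C =
      1 + (2 : ℤ_[2]) ^ i • (A + (2 : ℤ_[2]) ^ n • C) := by
    rw [smul_add, smul_smul, ← pow_add]
    abel
  rw [hX]
  set X := A + (2 : ℤ_[2]) ^ n • C with hXd
  refine ⟨C + (2 : ℤ_[2]) ^ (i - (n + 1)) • (X * X), ?_⟩
  have h1 : (2 : ℤ_[2]) ^ (i + 1 + n) * (2 : ℤ_[2]) ^ (i - (n + 1)) = 2 ^ i * 2 ^ i := by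
    rw [← pow_add, ← pow_add]
    congr 1
    omega
  have h2 : (2 : ℤ_[2]) ^ (i + 1) • X = (2 : ℤ_[2]) ^ i • X + (2 : ℤ_[2]) ^ i • X := by
    rw [pow_succ, mul_smul, two_smul, smul_add]
  have h3 : (2 : ℤ_[2]) ^ (i + 1) • A + (2 : ℤ_[2]) ^ (i + 1 + n) • C = (2 : ℤ_[2]) ^ (i + 1) • X := by
    rw [hXd, smul_add, smul_smul, ← pow_add]
  calc (1 + (2 : ℤ_[2]) ^ i • X) * (1 + (2 : ℤ_[2]) ^ i • X)
      = 1 + ((2 : ℤ_[2]) ^ i • X + (2 : ℤ_[2]) ^ i • X) + (2 ^ i * 2 ^ i : ℤ_[2]) • (X * X) := by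
        rw [mul_add, mul_one, add_mul, one_mul, smul_mul_assoc, mul_smul_comm, smul_smul]
        abel
    _ = 1 + ((2 : ℤ_[2]) ^ (i + 1) • A + (2 : ℤ_[2]) ^ (i + 1 + n) • C) +
        (2 ^ i * 2 ^ i : ℤ_[2]) • (X * X) := by rw [h3, h2]
    _ = _ := by
        rw [smul_add ((2 : ℤ_[2]) ^ (i + 1 + n)), smul_smul, h1]
        abel

variable {H : Subgroup (End ℤ_[2] M)ˣ}

theorem stab {A : End ℤ_[2] M} (h : InLie H A) (n : ℕ) : ∃ i₀, n + 1 ≤ i₀ ∧ ∀ i, i₀ ≤ i →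
    ∃ g ∈ H, Cg (i + n) (g : End ℤ_[2] M) (1 + (2 : ℤ_[2]) ^ i • A) := by
  obtain ⟨i₀, hi₀, g₀, hg₀, h₀⟩ := h (n + 1)
  refine ⟨i₀, hi₀, fun i hi => ?_⟩
  induction i, hi using Nat.le_induction with
  | base => exact ⟨g₀, hg₀, Cg.mono (by omega) h₀⟩
  | succ i hi ih =>
    obtain ⟨g, hg, h1⟩ := ih
    exact ⟨g * g, mul_mem hg hg, cg_sq (hi₀.trans hi) h1⟩

theorem InLie.add {A B : End ℤ_[2] M} (hA : InLie H A) (hB : InLie H B) : InLie H (A + B) := by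
  intro n
  obtain ⟨i, hi, h1⟩ := stab hA n
  obtain ⟨j, hj, h2⟩ := stab hB n
  obtain ⟨g, hg, h3⟩ := h1 (max i j) (le_max_left _ _)
  obtain ⟨h, hh, h4⟩ := h2 (max i j) (le_max_right _ _)
  have hn : n ≤ max i j := by
    have := le_max_left i j
    omega
  exact ⟨max i j, hn, g * h, mul_mem hg hh, cg_mul hn h3 h4⟩

theorem InLie.zero : InLie H (0 : End ℤ_[2] M) := fun n =>
  ⟨n, le_rfl, 1, one_mem _, 0, by rw [smul_zero, smul_zero, add_zero, add_zero]; rfl⟩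

theorem InLie.nsmul {A : End ℤ_[2] M} (hA : InLie H A) (m : ℕ) : InLie H (m • A) := by
  induction m with
  | zero => rw [zero_smul]; exact InLie.zero
  | succ m ih => rw [succ_nsmul]; exact InLie.add ih hA

theorem InLie.of_cg {A : End ℤ_[2] M} (h : ∀ n, ∃ B, InLie H B ∧ Cg n B A) : InLie H A := by
  intro n
  obtain ⟨B, hB, C, hC⟩ := h n
  obtain ⟨i, hi, g, hg, h1⟩ := hB n
  refine ⟨i, hi, g, hg, Cg.trans h1 ⟨C, ?_⟩⟩
  rw [hC, smul_add, smul_smul, ← pow_add]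
  abel

theorem exists_nat (c : ℤ_[2]) (n : ℕ) : ∃ (m : ℕ) (d : ℤ_[2]), c = m + 2 ^ n * d := by
  have h1 := PadicInt.appr_spec n c
  rw [Ideal.mem_span_singleton] at h1
  obtain ⟨d, hd⟩ := h1
  refine ⟨c.appr n, d, ?_⟩
  have h2 : ((2 : ℕ) : ℤ_[2]) = 2 := Nat.cast_ofNat
  rw [h2] at hd
  rw [← hd]
  ring

theorem InLie.smul {A : End ℤ_[2] M} (hA : InLie H A) (c : ℤ_[2]) : InLie H (c • A) := by
  apply InLie.of_cg
  intro n
  obtain ⟨m, d, rfl⟩ := exists_nat c n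
  refine ⟨m • A, InLie.nsmul hA m, -(d • A), ?_⟩
  rw [add_smul, mul_smul, smul_neg, Nat.cast_smul_eq_nsmul]
  abel

theorem InLie.sat {A : End ℤ_[2] M} (h : InLie H ((2 : ℤ_[2]) • A)) : InLie H A := by
  intro n
  obtain ⟨i, hi, g, hg, h1⟩ := h (n + 1)
  refine ⟨i + 1, by omega, g, hg, ?_⟩
  rw [smul_smul, ← pow_succ] at h1
  exact Cg.mono (by omega) h1

theorem InLie.conj {A : End ℤ_[2] M} (hA : InLie H A) (g : (End ℤ_[2] M)ˣ) (hg : g ∈ H) :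
    InLie H ((g : End ℤ_[2] M) * A * ((g⁻¹ : (End ℤ_[2] M)ˣ) : End ℤ_[2] M)) := by
  intro n
  obtain ⟨i, hi, h, hh, h1⟩ := hA n
  refine ⟨i, hi, g * h * g⁻¹, mul_mem (mul_mem hg hh) (inv_mem hg), ?_⟩
  have h2 := Cg.mul_right ((g⁻¹ : (End ℤ_[2] M)ˣ) : End ℤ_[2] M) (Cg.mul_left (g : End ℤ_[2] M) h1)
  rw [mul_add, add_mul, mul_one, Units.mul_inv, mul_smul_comm, smul_mul_assoc] at h2
  exact h2

theorem lie1 : Lie1 := by
  intro M _ _ H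
  refine ⟨{ carrier := {A | InLie H A}, add_mem' := fun hA hB => InLie.add hA hB,
            zero_mem' := InLie.zero, smul_mem' := fun c A hA => InLie.smul hA c },
    fun A => Iff.rfl, fun A hA => InLie.sat hA, fun g hg A hA => InLie.conj hA g hg, ?_⟩
  intro A hA n
  obtain ⟨i₀, -, h⟩ := stab hA n
  exact ⟨i₀, h⟩

theorem lie3 : Lie3 := by
  intro M _ _ H B hB A hA x y
  have key : ∀ n : ℕ, (2 : ℤ_[2]) ^ n ∣ B (A x) y + B x (A y) := by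
    intro n
    obtain ⟨i, hi, g, hg, C, hC⟩ := hA n
    have h1 := hB g hg x y
    rw [hC] at h1
    simp only [LinearMap.add_apply, LinearMap.smul_apply, End.one_apply, map_add, map_smul,
      smul_eq_mul] at h1
    have h2 : (2 : ℤ_[2]) ^ (i + n) = 2 ^ i * 2 ^ n := pow_add _ _ _
    have h3 : (2 : ℤ_[2]) ^ i = 2 ^ (i - n) * 2 ^ n := by rw [← pow_add, Nat.sub_add_cancel hi]
    rw [h2] at h1
    have h4 : (2 : ℤ_[2]) ^ i * (B (A x) y + B x (A y)) = 2 ^ i * (2 ^ n *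
        -(B x (C y) + B (C x) y + 2 ^ (i - n) * B (A x) (A y) + 2 ^ i * B (A x) (C y) +
          2 ^ i * B (C x) (A y) + 2 ^ i * 2 ^ n * B (C x) (C y))) := by
      have h5 : (2 : ℤ_[2]) ^ i * (2 ^ n * (2 ^ (i - n) * B (A x) (A y))) =
          2 ^ i * (2 ^ i * B (A x) (A y)) := by
        rw [← mul_assoc (2 ^ n), mul_comm ((2 : ℤ_[2]) ^ n) (2 ^ (i - n)), ← h3]
      linear_combination h1 + h5
    exact ⟨_, mul_left_cancel₀ (pow_ne_zero i two_ne) h4⟩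
  have h0 : (B (A x) y + B x (A y) : ℤ_[2]) = 0 := by
    refine zero_of_div (N := ℤ_[2]) fun n => ?_
    obtain ⟨b, hb⟩ := key n
    exact ⟨b, by rw [hb, smul_eq_mul]⟩
  exact h0

theorem cg_pow {i n : ℕ} (hi : n ≤ i) {g A : End ℤ_[2] M}
    (hg : Cg (i + n) g (1 + (2 : ℤ_[2]) ^ i • A)) (N : ℕ) :
    Cg (i + n) (g ^ N) (1 + (2 : ℤ_[2]) ^ i • (N • A)) := by
  induction N with
  | zero => rw [pow_zero, zero_smul, smul_zero, add_zero]; exact Cg.refl _ _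
  | succ N ih => rw [pow_succ, succ_nsmul]; exact cg_mul hi ih hg

theorem lie5 : Lie5 := by
  intro M _ _ H H' N hN hpow A hA
  obtain ⟨a, m, hm, rfl⟩ := Nat.exists_eq_two_pow_mul_odd hN.ne'
  have h1 : InLie H' ((m : ℤ_[2]) • A) := by
    intro n
    obtain ⟨i, hi, g, hg, h1⟩ := hA (n + a)
    have h2 := cg_pow hi h1 (2 ^ a * m)
    refine ⟨i + a, by omega, g ^ (2 ^ a * m), hpow g hg, ?_⟩
    rw [Units.val_pow_eq_pow_val]
    have h3 : (2 : ℤ_[2]) ^ (i + a) • (m : ℤ_[2]) • A = (2 : ℤ_[2]) ^ i • ((2 ^ a * m : ℕ) • A) := by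
      rw [← Nat.cast_smul_eq_nsmul ℤ_[2], smul_smul, smul_smul, pow_add]
      congr 1
      push_cast
      ring
    rw [h3, show i + a + n = i + (n + a) by omega]
    exact h2
  have hu : IsUnit (m : ℤ_[2]) := by
    rw [PadicInt.isUnit_iff]
    by_contra hne
    have h2 : ‖(m : ℤ_[2])‖ < 1 := lt_of_le_of_ne (PadicInt.norm_le_one _) hne
    have h3 := (PadicInt.norm_int_lt_one_iff_dvd (p := 2) (m : ℤ)).1 (by exact_mod_cast h2)
    have h4 : 2 ∣ m := by exact_mod_cast h3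
    exact (Nat.not_even_iff_odd.2 hm) (even_iff_two_dvd.2 h4)
  obtain ⟨u, hu⟩ := hu
  have h2 := InLie.smul h1 ((u⁻¹ : ℤ_[2]ˣ) : ℤ_[2])
  rw [← hu, smul_smul, Units.inv_mul, one_smul] at h2
  exact h2

end Pool.Agent.Q45.OI.KLA
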