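import Pool.Agent.Q45.OI.K.LA
import Pool.Agent.Q45.OI.Alg2

/-!
# The Lie algebra of a group of automorphisms, second part
-/

set_option autoImplicit false
set_option linter.all false

open Module

namespace Pool.Agent.Q45.OI.KLA

open Pool.Agent.Q45.OI

theorem exists_lim (f : ℕ → ℤ_[2]) (h : ∀ n, (2 : ℤ_[2]) ^ (n + 1) ∣ f (n + 1) - f n) :
    ∃ L, ∀ n, (2 : ℤ_[2]) ^ (n + 1) ∣ L - f n := by
  have hspan : ∀ n : ℕ, ∀ x y : ℤ_[2], x ≡ y [SMOD (IsLocalRing.maximalIdeal ℤ_[2] ^ n •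
      (⊤ : Submodule ℤ_[2] ℤ_[2]))] ↔ (2 : ℤ_[2]) ^ n ∣ x - y := by
    intro n x y
    rw [SModEq.sub_mem, PadicInt.maximalIdeal_eq_span_p, Ideal.span_singleton_pow,
      smul_eq_mul, Ideal.mul_top, Ideal.mem_span_singleton]
    exact Iff.rfl
  have hmono : ∀ m n : ℕ, m ≤ n → (2 : ℤ_[2]) ^ m ∣ f m - f n := by
    intro m n hmn
    induction n, hmn using Nat.le_induction with
    | base => rw [sub_self]; exact dvd_zero _
    | succ n hn ih =>
      have h1 : f m - f (n + 1) = (f m - f n) - (f (n + 1) - f n) := by ring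
      rw [h1]
      exact dvd_sub ih ((pow_dvd_pow 2 (by omega)).trans (h n))
  obtain ⟨L, hL⟩ := IsPrecomplete.prec' (I := IsLocalRing.maximalIdeal ℤ_[2]) f
    (fun {m n} hmn => (hspan m _ _).2 (hmono m n hmn))
  refine ⟨L, fun n => ?_⟩
  have h1 := (hspan (n + 1) _ _).1 (hL (n + 1))
  have h2 : L - f n = (f (n + 1) - f n) - (f (n + 1) - L) := by ring
  rw [h2]
  exact dvd_sub (h n) h1

theorem exists_lim_mod {N : Type} [AddCommGroup N] [Module ℤ_[2] N] [Module.Free ℤ_[2] N]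
    [Module.Finite ℤ_[2] N] (f : ℕ → N)
    (h : ∀ n, ∃ b, f (n + 1) - f n = (2 : ℤ_[2]) ^ (n + 1) • b) :
    ∃ L, ∀ n, ∃ b, L - f n = (2 : ℤ_[2]) ^ (n + 1) • b := by
  set bs := Module.Free.chooseBasis ℤ_[2] N
  have h1 : ∀ i, ∃ L, ∀ n, (2 : ℤ_[2]) ^ (n + 1) ∣ L - bs.repr (f n) i := by
    intro i
    apply exists_lim
    intro n
    obtain ⟨b, hb⟩ := h n
    refine ⟨bs.repr b i, ?_⟩
    rw [← Finsupp.sub_apply, ← map_sub, hb, map_smul, Finsupp.smul_apply, smul_eq_mul]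
  choose L hL using h1
  choose c hc using hL
  refine ⟨bs.equivFun.symm L, fun n => ⟨bs.equivFun.symm fun i => c i n, ?_⟩⟩
  apply bs.equivFun.injective
  rw [map_sub, LinearEquiv.apply_symm_apply, map_smul, LinearEquiv.apply_symm_apply]
  funext i
  rw [Pi.sub_apply, Pi.smul_apply, smul_eq_mul, ← hc]
  rfl

theorem lie2 : Lie2 := by
  intro M _ _ _ _ H i hi g hg A hA
  let F : ℕ → End ℤ_[2] M := fun m =>
    Nat.rec A (fun m B => B + (2 : ℤ_[2]) ^ (i + m - 1) • (B * B)) m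
  have hF : ∀ m, F (m + 1) = F m + (2 : ℤ_[2]) ^ (i + m - 1) • (F m * F m) := fun m => rfl
  have hpow : ∀ m, ((g ^ (2 ^ m) : (End ℤ_[2] M)ˣ) : End ℤ_[2] M) =
      1 + (2 : ℤ_[2]) ^ (i + m) • F m := by
    intro m
    induction m with
    | zero =>
      rw [pow_zero, pow_one, add_zero]
      exact hA
    | succ m ih =>
      rw [pow_succ, pow_mul, pow_two, Units.val_mul, ih, hF]
      have h1 : (2 : ℤ_[2]) ^ (i + m) * (2 : ℤ_[2]) ^ (i + m) =
          2 ^ (i + (m + 1)) * 2 ^ (i + m - 1) := by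
        rw [← pow_add, ← pow_add]
        congr 1
        omega
      have h2 : (2 : ℤ_[2]) ^ (i + (m + 1)) • F m = (2 : ℤ_[2]) ^ (i + m) • F m +
          (2 : ℤ_[2]) ^ (i + m) • F m := by
        rw [← add_assoc, pow_succ, mul_smul, two_smul, smul_add]
      rw [smul_add, smul_smul ((2 : ℤ_[2]) ^ (i + (m + 1))), ← h1, h2, mul_add, mul_one, add_mul,
        one_mul, smul_mul_assoc, mul_smul_comm, smul_smul]
      abel
  obtain ⟨L, hL⟩ := exists_lim_mod F (fun m => by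
    refine ⟨(2 : ℤ_[2]) ^ (i - 2) • (F m * F m), ?_⟩
    rw [hF, add_sub_cancel_left, smul_smul, ← pow_add]
    congr 2
    omega)
  refine ⟨L, fun n => ⟨i + n, by omega, g ^ (2 ^ n), pow_mem hg _, ?_⟩, ?_⟩
  · obtain ⟨b, hb⟩ := hL n
    rw [hpow]
    refine ⟨-((2 : ℤ_[2]) • b), ?_⟩
    have h1 : L = F n + (2 : ℤ_[2]) ^ (n + 1) • b := by rw [← hb]; abel
    rw [h1, smul_add, smul_smul, smul_neg, smul_smul, ← pow_add, ← pow_succ,
      show i + n + (n + 1) = i + n + n + 1 by omega]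
    abel
  · obtain ⟨b, hb⟩ := hL 0
    refine ⟨b, ?_⟩
    have h1 : F 0 = A := rfl
    rw [h1, zero_add] at hb
    rw [← hb]
    abel

/-- The units which preserve a form. -/
def oGrp {M : Type} [AddCommGroup M] [Module ℤ_[2] M] (B : M →ₗ[ℤ_[2]] M →ₗ[ℤ_[2]] ℤ_[2]) :
    Subgroup (End ℤ_[2] M)ˣ where
  carrier := {g | InO B (g : End ℤ_[2] M)}
  mul_mem' := by
    intro g h hg hh x y
    rw [Units.val_mul, End.mul_apply, End.mul_apply, hg, hh]
  one_mem' := fun x y => rfl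
  inv_mem' := by
    intro g hg x y
    have h1 := hg (((g⁻¹ : (End ℤ_[2] M)ˣ) : End ℤ_[2] M) x) (((g⁻¹ : (End ℤ_[2] M)ˣ) : End ℤ_[2] M) y)
    have h2 : ∀ z, (g : End ℤ_[2] M) (((g⁻¹ : (End ℤ_[2] M)ˣ) : End ℤ_[2] M) z) = z := by
      intro z
      rw [← End.mul_apply, Units.mul_inv]
      rfl
    rw [h2, h2] at h1
    exact h1.symm

/-- Coordinates modulo two. -/
theorem exists_cls (N : Type) [AddCommGroup N] [Module ℤ_[2] N] [Module.Free ℤ_[2] N]
    [Module.Finite ℤ_[2] N] : ∃ (X : Type) (_ : Finite X) (cls : N → X),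
      ∀ a b, cls a = cls b ↔ ∃ c, a - b = (2 : ℤ_[2]) • c := by
  set bs := Module.Free.chooseBasis ℤ_[2] N
  refine ⟨Module.Free.ChooseBasisIndex ℤ_[2] N → ZMod 2, inferInstance,
    fun a i => PadicInt.toZMod (bs.repr a i), fun a b => ?_⟩
  constructor
  · intro h
    have h1 : ∀ i, ∃ c, bs.repr (a - b) i = 2 * c := by
      intro i
      rw [← tz_zero_iff, map_sub, Finsupp.sub_apply, map_sub, sub_eq_zero]
      exact congrFun h i
    choose c hc using h1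
    refine ⟨bs.equivFun.symm c, ?_⟩
    apply bs.equivFun.injective
    rw [map_smul, LinearEquiv.apply_symm_apply]
    funext i
    exact hc i
  · rintro ⟨c, hc⟩
    funext i
    rw [← sub_eq_zero, ← map_sub, ← Finsupp.sub_apply, ← map_sub, hc, map_smul, Finsupp.smul_apply,
      smul_eq_mul, tz_two]

theorem lie4 : Lie4 := by
  intro M _ _ _ _ H B hB hso
  obtain ⟨X, _, cls, hcls⟩ := exists_cls (End ℤ_[2] M)
  have hcl : ∀ A A' : End ℤ_[2] M, cls A = cls A' ↔ Cg 1 A A' := by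
    intro A A'
    rw [hcls]
    constructor
    · rintro ⟨c, hc⟩
      exact ⟨c, by rw [pow_one, ← hc]; abel⟩
    · rintro ⟨c, hc⟩
      exact ⟨c, by rw [hc, pow_one]; abel⟩
  have h1 : ∀ c : X, ∃ i₀ : ℕ, ∀ D, InSo B D → cls D = c → ∀ i, i₀ ≤ i →
      ∃ h ∈ H, Cg (i + 1) (h : End ℤ_[2] M) (1 + (2 : ℤ_[2]) ^ i • D) := by
    intro c
    by_cases hc : ∃ D, InSo B D ∧ cls D = c
    · obtain ⟨D, hD, hDc⟩ := hc
      obtain ⟨i₀, -, hi₀⟩ := stab (hso D hD) 1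
      refine ⟨i₀, fun D' hD' hD'c i hi => ?_⟩
      obtain ⟨h, hh, h2⟩ := hi₀ i hi
      refine ⟨h, hh, Cg.trans h2 ?_⟩
      obtain ⟨E, hE⟩ := (hcl D D').1 (hDc.trans hD'c.symm)
      refine ⟨E, ?_⟩
      rw [hE, pow_one, smul_add, smul_smul, ← pow_succ]
      abel
    · exact ⟨0, fun D hD hDc => absurd ⟨D, hD, hDc⟩ hc⟩
  choose i₀ hi₀ using h1
  obtain ⟨J, hJ⟩ : ∃ J, ∀ c, i₀ c ≤ J := by
    haveI := Fintype.ofFinite X
    exact ⟨Finset.univ.sup i₀, fun c => Finset.le_sup (Finset.mem_univ c)⟩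
  refine ⟨J + 2, fun a ha ha1 n => ?_⟩
  have key : ∀ n, J + 2 ≤ n → ∃ g ∈ H, Cg n (g : End ℤ_[2] M) (a : End ℤ_[2] M) := by
    intro n hn
    induction n, hn using Nat.le_induction with
    | base => exact ⟨1, one_mem _, Cg.symm ha1⟩
    | succ n hn ih =>
      obtain ⟨g, hg, h2⟩ := ih
      -- `a g⁻¹ = 1 + 2 ^ n D`
      obtain ⟨D, hD⟩ : Cg n ((a * g⁻¹ : (End ℤ_[2] M)ˣ) : End ℤ_[2] M) 1 := by
        rw [Units.val_mul]
        have h3 := Cg.mul_right ((g⁻¹ : (End ℤ_[2] M)ˣ) : End ℤ_[2] M) (Cg.symm h2)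
        rwa [Units.mul_inv] at h3
      have hgO : g ∈ oGrp B := hB g hg
      have haO : a ∈ oGrp B := ha
      obtain ⟨D', hD'1, hD'2⟩ := lie2 M (oGrp B) n (by omega) (a * g⁻¹)
        (mul_mem haO (inv_mem hgO)) D hD
      have hD'3 : InSo B D' := lie3 M (oGrp B) B (fun g hg => hg) D' hD'1
      obtain ⟨h, hh, h4⟩ := hi₀ (cls D') D' hD'3 rfl n (by
        have := hJ (cls D')
        omega)
      refine ⟨h * g, mul_mem hh hg, ?_⟩
      have h5 : Cg (n + 1) (h : End ℤ_[2] M) ((a * g⁻¹ : (End ℤ_[2] M)ˣ) : End ℤ_[2] M) := by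
        refine Cg.trans h4 ?_
        rw [hD]
        obtain ⟨E, hE⟩ := hD'2
        refine ⟨E, ?_⟩
        rw [hE, pow_one, smul_add, smul_smul, ← pow_succ]
        abel
      have h6 := Cg.mul_right (g : End ℤ_[2] M) h5
      rw [← Units.val_mul, ← Units.val_mul, inv_mul_cancel_right] at h6
      exact h6
  rcases le_total (J + 2) n with hn | hn
  · exact key n hn
  · obtain ⟨g, hg, h2⟩ := key (J + 2) le_rfl
    exact ⟨g, hg, Cg.mono hn h2⟩

end Pool.Agent.Q45.OI.KLA
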